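import Mathlib

/-!
# Local reductions: collisions in a random balanced colouring
-/

set_option autoImplicit false

namespace Pool.Agent.Work.MP_3154ac_lc.LR

open Finset

lemma exists_perm {α : Type} [DecidableEq α] {u v u' v' : α} (h : u ≠ v) (h' : u' ≠ v') :
    ∃ τ : Equiv.Perm α, τ u = u' ∧ τ v = v' := by
  set σ₁ := Equiv.swap u u' with hσ₁
  have h1 : σ₁ v ≠ u' := by
    intro hc
    apply h
    apply σ₁.injective
    rw [hc, hσ₁, Equiv.swap_apply_left]
  refine ⟨Equiv.swap (σ₁ v) v' * σ₁, ?_, ?_⟩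
  · rw [Equiv.Perm.mul_apply, hσ₁, Equiv.swap_apply_left, ← hσ₁,
      Equiv.swap_apply_of_ne_of_ne h1.symm h']
  · rw [Equiv.Perm.mul_apply, Equiv.swap_apply_left]

/-- the permutations which send `u` and `v` to numbers congruent modulo `q` -/
def coll (k q : ℕ) (u v : Fin k) : Finset (Equiv.Perm (Fin k)) :=
  univ.filter fun π => (π u).val % q = (π v).val % q

lemma coll_const {k q : ℕ} {u v u' v' : Fin k} (h : u ≠ v) (h' : u' ≠ v') :
    (coll k q u v).card = (coll k q u' v').card := by
  obtain ⟨τ, h1, h2⟩ := exists_perm h h'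
  symm
  apply Finset.card_bij (fun π _ => π * τ)
  · intro π hπ
    rw [coll, mem_filter] at hπ ⊢
    refine ⟨mem_univ _, ?_⟩
    rw [Equiv.Perm.mul_apply, Equiv.Perm.mul_apply, h1, h2]
    exact hπ.2
  · intro π _ π' _ h3
    exact mul_right_cancel h3
  · intro π hπ
    refine ⟨π * τ⁻¹, ?_, by simp⟩
    rw [coll, mem_filter] at hπ ⊢
    refine ⟨mem_univ _, ?_⟩
    have e1 : τ⁻¹ u' = u := by rw [← h1]; simp
    have e2 : τ⁻¹ v' = v := by rw [← h2]; simp
    rw [Equiv.Perm.mul_apply, Equiv.Perm.mul_apply, e1, e2]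
    exact hπ.2

/-- the congruent pairs -/
def cong (k q : ℕ) : Finset (Fin k × Fin k) :=
  (univ : Finset (Fin k)).offDiag.filter fun p => p.1.val % q = p.2.val % q

lemma sum_coll (k q : ℕ) : ∑ p ∈ (univ : Finset (Fin k)).offDiag, (coll k q p.1 p.2).card =
    k.factorial * (cong k q).card := by
  have h1 : ∀ p : Fin k × Fin k, (coll k q p.1 p.2).card =
      ∑ π : Equiv.Perm (Fin k), if (π p.1).val % q = (π p.2).val % q then 1 else 0 := by
    intro p
    rw [coll, card_filter]
  simp_rw [h1]
  rw [sum_comm]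
  have h2 : ∀ π : Equiv.Perm (Fin k), (∑ p ∈ (univ : Finset (Fin k)).offDiag,
      if (π p.1).val % q = (π p.2).val % q then 1 else 0) = (cong k q).card := by
    intro π
    rw [← card_filter]
    apply Finset.card_bij (fun p _ => (π p.1, π p.2))
    · intro p hp
      rw [mem_filter, mem_offDiag] at hp
      rw [cong, mem_filter, mem_offDiag]
      exact ⟨⟨mem_univ _, mem_univ _, fun h => hp.1.2.2 (π.injective h)⟩, hp.2⟩
    · intro p _ p' _ h
      rw [Prod.mk.injEq] at h
      exact Prod.ext (π.injective h.1) (π.injective h.2)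
    · intro p hp
      rw [cong, mem_filter, mem_offDiag] at hp
      refine ⟨(π.symm p.1, π.symm p.2), ?_, by simp⟩
      rw [mem_filter, mem_offDiag]
      refine ⟨⟨mem_univ _, mem_univ _, fun h => hp.1.2.2 (π.symm.injective h)⟩, ?_⟩
      simpa using hp.2
  simp_rw [h2]
  rw [sum_const, card_univ, Fintype.card_perm, Fintype.card_fin, smul_eq_mul]

lemma card_cong_half (k q : ℕ) (hq : 1 ≤ q) :
    (((univ : Finset (Fin k × Fin k)).filter
      (fun p => p.1 < p.2 ∧ p.1.val % q = p.2.val % q)).card) ≤ (k - 1) / q * (k - q) := by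
  have h1 : (((univ : Finset (Fin k × Fin k)).filter
      (fun p => p.1 < p.2 ∧ p.1.val % q = p.2.val % q)).card) ≤
      (Icc 1 ((k - 1) / q) ×ˢ range (k - q)).card := by
    apply Finset.card_le_card_of_injOn (fun p => ((p.2.val - p.1.val) / q, p.1.val))
    · intro p hp
      rw [mem_coe, mem_filter] at hp
      obtain ⟨-, hlt, hc⟩ := hp
      have hlt' : p.1.val < p.2.val := hlt
      have hdvd : q ∣ p.2.val - p.1.val := (Nat.modEq_iff_dvd' hlt'.le).1 hc
      obtain ⟨l, hl⟩ := hdvd
      have hp2 := p.2.isLt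
      have hl1 : 1 ≤ l := by
        rcases Nat.eq_zero_or_pos l with h0 | h0
        · rw [h0, Nat.mul_zero] at hl
          omega
        · exact h0
      have hql : q ≤ q * l := Nat.le_mul_of_pos_right _ hl1
      rw [mem_coe, mem_product, mem_Icc, mem_range]
      refine ⟨⟨?_, ?_⟩, ?_⟩
      · change 1 ≤ (p.2.val - p.1.val) / q
        rw [hl, Nat.mul_div_cancel_left _ (by omega)]
        exact hl1
      · exact Nat.div_le_div_right (by omega)
      · change p.1.val < k - q
        omega
    · intro p hp p' hp' h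
      rw [mem_coe, mem_filter] at hp hp'
      rw [Prod.mk.injEq] at h
      obtain ⟨-, hlt, hc⟩ := hp
      obtain ⟨-, hlt', hc'⟩ := hp'
      have hlt1 : p.1.val < p.2.val := hlt
      have hlt2 : p'.1.val < p'.2.val := hlt'
      have hd1 : q ∣ p.2.val - p.1.val := (Nat.modEq_iff_dvd' hlt1.le).1 hc
      have hd2 : q ∣ p'.2.val - p'.1.val := (Nat.modEq_iff_dvd' hlt2.le).1 hc'
      have e1 := Nat.div_mul_cancel hd1
      have e2 := Nat.div_mul_cancel hd2
      have e3 : p.2.val - p.1.val = p'.2.val - p'.1.val := by rw [← e1, ← e2, h.1]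
      have e4 : p.1 = p'.1 := Fin.ext h.2
      have e5 : p.1.val = p'.1.val := h.2
      exact Prod.ext e4 (Fin.ext (by omega))
  refine h1.trans ?_
  rw [card_product, Nat.card_Icc, card_range, Nat.add_sub_cancel]

lemma card_cong (k q : ℕ) (hq : 1 ≤ q) : (cong k q).card ≤ 2 * ((k - 1) / q * (k - q)) := by
  set A := (univ : Finset (Fin k × Fin k)).filter
    (fun p => p.1 < p.2 ∧ p.1.val % q = p.2.val % q) with hA
  have h1 : cong k q ⊆ A ∪ A.image Prod.swap := by
    intro p hp
    rw [cong, mem_filter, mem_offDiag] at hp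
    rw [mem_union]
    rcases lt_or_gt_of_ne hp.1.2.2 with h | h
    · left
      rw [hA, mem_filter]
      exact ⟨mem_univ _, h, hp.2⟩
    · right
      rw [mem_image]
      refine ⟨p.swap, ?_, Prod.swap_swap p⟩
      rw [hA, mem_filter]
      exact ⟨mem_univ _, h, hp.2.symm⟩
  have h2 := card_cong_half k q hq
  rw [← hA] at h2
  calc (cong k q).card ≤ _ := card_le_card h1
    _ ≤ _ := card_union_le _ _
    _ ≤ A.card + A.card := Nat.add_le_add_left card_image_le _
    _ ≤ 2 * ((k - 1) / q * (k - q)) := by omega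

/-- the collision probability is at most `2 (k - q) / (q k)` -/
lemma card_coll {k q : ℕ} (hq : 1 ≤ q) {u v : Fin k} (h : u ≠ v) :
    q * k * (coll k q u v).card ≤ 2 * k.factorial * (k - q) := by
  have hk : 2 ≤ k := by
    by_contra hcon
    have hu := u.isLt
    have hv := v.isLt
    exact h (Fin.ext (by omega))
  have h1 := sum_coll k q
  have h2 : ∑ p ∈ (univ : Finset (Fin k)).offDiag, (coll k q p.1 p.2).card =
      (k * k - k) * (coll k q u v).card := by
    rw [Finset.sum_congr rfl (g := fun _ => (coll k q u v).card)]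
    · rw [sum_const, offDiag_card, card_univ, Fintype.card_fin, smul_eq_mul]
    · intro p hp
      rw [mem_offDiag] at hp
      exact coll_const hp.2.2 h
  have h3 : k * k - k = k * (k - 1) := by rw [Nat.mul_sub, Nat.mul_one]
  rw [h2, h3] at h1
  have h4 := card_cong k q hq
  have h5 : q * ((k - 1) / q) ≤ k - 1 := Nat.mul_div_le _ _
  have hpos : 0 < k - 1 := by omega
  apply Nat.le_of_mul_le_mul_left _ hpos
  calc (k - 1) * (q * k * (coll k q u v).card) = q * (k * (k - 1) * (coll k q u v).card) := by ring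
    _ = q * (k.factorial * (cong k q).card) := by rw [h1]
    _ ≤ q * (k.factorial * (2 * ((k - 1) / q * (k - q)))) := by gcongr
    _ = 2 * k.factorial * (k - q) * (q * ((k - 1) / q)) := by ring
    _ ≤ 2 * k.factorial * (k - q) * (k - 1) := by gcongr
    _ = (k - 1) * (2 * k.factorial * (k - q)) := by ring

end Pool.Agent.Work.MP_3154ac_lc.LR
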