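import Pool.Agent.Work.MP_3154ac_lc.LR.Count
import Pool.Agent.Work.MP_3154ac_lc.LR.Perm

/-!
# Local reductions: one clique, random multipartite subgraphs
-/

set_option autoImplicit false

namespace Pool.Agent.Work.MP_3154ac_lc.LR

open Finset

variable {n k m : ℕ} {W : Type}

/-- the random colouring of the clique `S` -/
noncomputable def col (S : Finset (Fin n)) (hS : S.card = k) (q : ℕ) (π : Equiv.Perm (Fin k)) :
    Fin n → ℕ :=
  fun a => if h : a ∈ S then (π (S.equivFinOfCardEq hS ⟨a, h⟩)).val % q else 0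

lemma col_lt (S : Finset (Fin n)) (hS : S.card = k) {q : ℕ} (hq : 1 ≤ q)
    (π : Equiv.Perm (Fin k)) (a : Fin n) : col S hS q π a < q := by
  unfold col
  split_ifs
  · exact Nat.mod_lt _ (by omega)
  · omega

open Classical in
/-- the permutations for which the colouring is not injective on `X` -/
noncomputable def bad (S : Finset (Fin n)) (hS : S.card = k) (q : ℕ) (X : Finset (Fin n)) :
    Finset (Equiv.Perm (Fin k)) :=
  univ.filter fun π => ∃ a ∈ X, ∃ b ∈ X, a ≠ b ∧ col S hS q π a = col S hS q π b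

lemma card_bad (S : Finset (Fin n)) (hS : S.card = k) {q : ℕ} (hq : 1 ≤ q)
    (X : Finset (Fin n)) (hX : X ⊆ S) {s : ℕ} (hs : X.card ≤ s) :
    q * k * (bad S hS q X).card ≤ s ^ 2 * (2 * k.factorial * (k - q)) := by
  classical
  set f : Fin n → Fin n → Finset (Equiv.Perm (Fin k)) := fun a b =>
    if h : a ∈ S ∧ b ∈ S then
      coll k q (S.equivFinOfCardEq hS ⟨a, h.1⟩) (S.equivFinOfCardEq hS ⟨b, h.2⟩)
    else ∅ with hf
  have h1 : bad S hS q X ⊆ X.offDiag.biUnion fun p => f p.1 p.2 := by
    intro π hπ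
    rw [bad, mem_filter] at hπ
    obtain ⟨-, a, ha, b, hb, hab, h⟩ := hπ
    rw [mem_biUnion]
    refine ⟨(a, b), mem_offDiag.2 ⟨ha, hb, hab⟩, ?_⟩
    have ha' := hX ha
    have hb' := hX hb
    simp only [hf]
    rw [dif_pos ⟨ha', hb'⟩, coll, mem_filter]
    refine ⟨mem_univ _, ?_⟩
    unfold col at h
    rw [dif_pos ha', dif_pos hb'] at h
    exact h
  have h2 : ∀ p ∈ X.offDiag, q * k * (f p.1 p.2).card ≤ 2 * k.factorial * (k - q) := by
    intro p hp
    rw [mem_offDiag] at hp
    simp only [hf]
    rw [dif_pos ⟨hX hp.1, hX hp.2.1⟩]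
    apply card_coll hq
    intro h
    apply hp.2.2
    have := (S.equivFinOfCardEq hS).injective h
    exact congrArg Subtype.val this
  calc q * k * (bad S hS q X).card ≤ q * k * ∑ p ∈ X.offDiag, (f p.1 p.2).card :=
        Nat.mul_le_mul_left _ ((card_le_card h1).trans card_biUnion_le)
    _ = ∑ p ∈ X.offDiag, q * k * (f p.1 p.2).card := by rw [mul_sum]
    _ ≤ ∑ p ∈ X.offDiag, 2 * k.factorial * (k - q) := sum_le_sum h2
    _ = X.offDiag.card * (2 * k.factorial * (k - q)) := by rw [sum_const, smul_eq_mul]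
    _ ≤ s ^ 2 * (2 * k.factorial * (k - q)) := by
      apply Nat.mul_le_mul_right
      rw [offDiag_card]
      calc X.card * X.card - X.card ≤ X.card * X.card := Nat.sub_le _ _
        _ ≤ s * s := Nat.mul_le_mul hs hs
        _ = s ^ 2 := (sq s).symm

/-- the pairs of parts -/
def pairs (m : ℕ) : Finset (Fin m × Fin m) := univ.filter fun p => p.1 < p.2

lemma card_pairs (m : ℕ) : (pairs m).card = m.choose 2 := by
  rw [pairs, card_filter, Fintype.sum_prod_type_right]
  have h1 : ∀ y : Fin m, (∑ x : Fin m, if x < y then 1 else 0) = y.val := by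
    intro y
    rw [← card_filter]
    have h2 : (univ.filter fun x : Fin m => x < y) = Iio y := by
      ext x
      simp
    rw [h2, Fin.card_Iio]
  simp_rw [h1]
  rw [Fin.sum_univ_eq_sum_range (fun i => i) m, Finset.sum_range_id, Nat.choose_two_right]

lemma value_add_missing (H : SimpleGraph W) (x : Fin m → W) [DecidablePred fun p : Fin m × Fin m =>
    ¬ H.Adj (x p.1) (x p.2)] :
    value H x + ((pairs m).filter fun p => ¬ H.Adj (x p.1) (x p.2)).card = m.choose 2 := by
  classical
  rw [← card_pairs]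
  have h1 : value H x = ((pairs m).filter fun p => H.Adj (x p.1) (x p.2)).card := by
    unfold value pairs
    rw [filter_filter]
  rw [h1]
  have := Finset.card_filter_add_card_filter_not (s := pairs m)
    (fun p : Fin m × Fin m => H.Adj (x p.1) (x p.2))
  convert this

lemma adj_of_full (H : SimpleGraph W) (x : Fin m → W) (h : value H x = m.choose 2)
    {i j : Fin m} (hij : i < j) : H.Adj (x i) (x j) := by
  classical
  have h1 := value_add_missing H x
  rw [h] at h1
  have h2 : ((pairs m).filter fun p => ¬ H.Adj (x p.1) (x p.2)) = ∅ := by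
    rw [← card_eq_zero]
    omega
  by_contra hcon
  have : (i, j) ∈ ((pairs m).filter fun p => ¬ H.Adj (x p.1) (x p.2)) := by
    rw [mem_filter, pairs, mem_filter]
    exact ⟨⟨mem_univ _, hij⟩, hcon⟩
  rw [h2] at this
  exact absurd this (Finset.notMem_empty _)

open Classical in
/-- If the clique `S` has a full solution which sees few vertices of `S` for every pair, then
the instance is small for at most one sixth of the permutations. -/
lemma card_small (S : Finset (Fin n)) (hS : S.card = k) {q s : ℕ} (hq : 1 ≤ q) (hqk : q ≤ k)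
    {e : ℝ} (he : 0 < e) (hs : 12 * (1 + e) * (s : ℝ) ^ 2 * ((k : ℝ) - q) ≤ e * q * k)
    (part : W → Fin m) (H : SimpleGraph (Fin n) → SimpleGraph W) (T : W → W → Tree n)
    (hT : ∀ u v G, (T u v).eval G = true ↔ (H G).Adj u v) (x : Fin m → W) (hx : IsSol part x)
    (hfull : value (H (cl S)) x = m.choose 2)
    (hfew : ∀ i j, i < j → (touched S (T (x i) (x j))).card ≤ s) :
    6 * (univ.filter fun π : Equiv.Perm (Fin k) =>
      Small e part (H (multi S (col S hS q π)))).card ≤ k.factorial := by
  set P := univ.filter fun π : Equiv.Perm (Fin k) =>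
    Small e part (H (multi S (col S hS q π))) with hP
  set M : ℝ := (m.choose 2 : ℝ) with hM
  have h1e : 0 < 1 + e := by linarith
  -- the number of missing pairs
  set mis : Equiv.Perm (Fin k) → ℕ := fun π =>
    ((pairs m).filter fun p => ¬ (H (multi S (col S hS q π))).Adj (x p.1) (x p.2)).card with hmis
  have hsum : ∑ π, mis π ≤ ∑ p ∈ pairs m, (bad S hS q (touched S (T (x p.1) (x p.2)))).card := by
    have e1 : ∀ π, mis π = ∑ p ∈ pairs m,
        if ¬ (H (multi S (col S hS q π))).Adj (x p.1) (x p.2) then 1 else 0 := by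
      intro π
      simp only [hmis]
      rw [card_filter]
    simp_rw [e1]
    rw [sum_comm]
    apply sum_le_sum
    intro p hp
    rw [← card_filter]
    apply card_le_card
    intro π hπ
    rw [mem_filter] at hπ
    rw [bad, mem_filter]
    refine ⟨mem_univ _, ?_⟩
    by_contra hcon
    push Not at hcon
    apply hπ.2
    have hp' : p.1 < p.2 := by
      rw [pairs, mem_filter] at hp
      exact hp.2
    have h2 := eval_multi S (col S hS q π) (T (x p.1) (x p.2))
      (fun a ha b hb hab => hcon a ha b hb hab)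
    rw [← hT, h2, hT]
    exact adj_of_full _ x hfull hp'
  have hbad : ∀ p ∈ pairs m, q * k * (bad S hS q (touched S (T (x p.1) (x p.2)))).card ≤
      s ^ 2 * (2 * k.factorial * (k - q)) := by
    intro p hp
    have hp' : p.1 < p.2 := by
      rw [pairs, mem_filter] at hp
      exact hp.2
    exact card_bad S hS hq _ (touched_subset _ _) (hfew _ _ hp')
  have hsum2 : q * k * ∑ π, mis π ≤ m.choose 2 * (s ^ 2 * (2 * k.factorial * (k - q))) := by
    calc q * k * ∑ π, mis π
        ≤ q * k * ∑ p ∈ pairs m, (bad S hS q (touched S (T (x p.1) (x p.2)))).card :=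
          Nat.mul_le_mul_left _ hsum
      _ = ∑ p ∈ pairs m, q * k * (bad S hS q (touched S (T (x p.1) (x p.2)))).card := by
          rw [mul_sum]
      _ ≤ ∑ _p ∈ pairs m, s ^ 2 * (2 * k.factorial * (k - q)) := sum_le_sum hbad
      _ = _ := by rw [sum_const, card_pairs, smul_eq_mul]
  -- every small permutation misses many pairs
  have hmany : ∀ π ∈ P, M * e / (1 + e) < (mis π : ℝ) := by
    intro π hπ
    rw [hP, mem_filter] at hπ
    have h2 := hπ.2 x hx
    have h3 := value_add_missing (H (multi S (col S hS q π))) x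
    have h4 : (value (H (multi S (col S hS q π))) x : ℝ) + (mis π : ℝ) = M := by
      rw [hM]
      exact_mod_cast h3
    have h5 : M * e / (1 + e) = M - M / (1 + e) := by
      field_simp
      ring
    rw [h5]
    linarith
  have hPsum : (P.card : ℝ) * (M * e / (1 + e)) ≤ ((∑ π, mis π : ℕ) : ℝ) := by
    calc (P.card : ℝ) * (M * e / (1 + e)) = ∑ _π ∈ P, (M * e / (1 + e)) := by
          rw [sum_const, nsmul_eq_mul]
      _ ≤ ∑ π ∈ P, (mis π : ℝ) := sum_le_sum fun π hπ => (hmany π hπ).le
      _ ≤ ∑ π, (mis π : ℝ) := sum_le_sum_of_subset_of_nonneg (subset_univ _)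
          (fun _ _ _ => Nat.cast_nonneg _)
      _ = _ := by push_cast; rfl
  by_cases hM0 : m.choose 2 = 0
  · -- no pairs
    have : P = ∅ := by
      rw [eq_empty_iff_forall_notMem]
      intro π hπ
      have h2 := hmany π hπ
      rw [hP, mem_filter] at hπ
      have h3 := hπ.2 x hx
      rw [hM0] at h3
      simp only [Nat.cast_zero, zero_div] at h3
      exact absurd h3 (not_lt.2 (Nat.cast_nonneg _))
    rw [this, card_empty]
    exact Nat.zero_le _
  · have hMpos : 0 < M := by
      rw [hM]
      exact_mod_cast Nat.pos_of_ne_zero hM0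
    have hk : (0 : ℝ) < k := by
      have : 0 < k := by omega
      exact_mod_cast this
    have hq' : (0 : ℝ) < q := by
      have : 0 < q := by omega
      exact_mod_cast this
    have h2 : (q : ℝ) * k * ((∑ π, mis π : ℕ) : ℝ) ≤
        M * ((s : ℝ) ^ 2 * (2 * k.factorial * ((k : ℝ) - q))) := by
      have h3 : ((q * k * ∑ π, mis π : ℕ) : ℝ) ≤
          ((m.choose 2 * (s ^ 2 * (2 * k.factorial * (k - q))) : ℕ) : ℝ) := by exact_mod_cast hsum2
      push_cast [Nat.cast_sub hqk] at h3
      rw [hM]
      push_cast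
      exact h3
    have h3 : (q : ℝ) * k * ((P.card : ℝ) * (M * e / (1 + e))) ≤
        M * ((s : ℝ) ^ 2 * (2 * k.factorial * ((k : ℝ) - q))) :=
      (mul_le_mul_of_nonneg_left hPsum (by positivity)).trans h2
    have h4 : (q : ℝ) * k * (P.card * e) ≤
        (1 + e) * ((s : ℝ) ^ 2 * (2 * k.factorial * ((k : ℝ) - q))) := by
      have h5 : (q : ℝ) * k * ((P.card : ℝ) * (M * e / (1 + e))) =
          M / (1 + e) * ((q : ℝ) * k * (P.card * e)) := by
        field_simp
      rw [h5] at h3
      have h6 : M / (1 + e) * ((1 + e) * ((s : ℝ) ^ 2 * (2 * k.factorial * ((k : ℝ) - q)))) =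
          M * ((s : ℝ) ^ 2 * (2 * k.factorial * ((k : ℝ) - q))) := by
        field_simp
      rw [← h6] at h3
      exact le_of_mul_le_mul_left h3 (by positivity)
    have h5 : (e * q * k) * (6 * (P.card : ℝ)) ≤ (e * q * k) * (k.factorial : ℝ) := by
      calc (e * q * k) * (6 * (P.card : ℝ)) = 6 * ((q : ℝ) * k * (P.card * e)) := by ring
        _ ≤ 6 * ((1 + e) * ((s : ℝ) ^ 2 * (2 * k.factorial * ((k : ℝ) - q)))) := by linarith
        _ = (12 * (1 + e) * (s : ℝ) ^ 2 * ((k : ℝ) - q)) * k.factorial := by ring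
        _ ≤ (e * q * k) * k.factorial := mul_le_mul_of_nonneg_right hs (by positivity)
    have h6 : 6 * (P.card : ℝ) ≤ (k.factorial : ℝ) :=
      le_of_mul_le_mul_left h5 (by positivity)
    exact_mod_cast h6

end Pool.Agent.Work.MP_3154ac_lc.LR
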