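import Pool.Agent.Work.MP_3154ac_lc.LR.Defs

/-!
# Local reductions: counting lemmas
-/

set_option autoImplicit false

namespace Pool.Agent.Work.MP_3154ac_lc.LR

open Finset

variable {n : ℕ}

open Classical in
/-- the vertices of `S` which are seen by the algorithm on the clique `S` in an edge -/
noncomputable def touched (S : Finset (Fin n)) : Tree n → Finset (Fin n)
  | .leaf _ => ∅
  | .ask a b t₀ t₁ => if a ≠ b ∧ a ∈ S ∧ b ∈ S then insert a (insert b (touched S t₁))
      else touched S t₀

/-- the clique `S` -/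
def cl (S : Finset (Fin n)) : SimpleGraph (Fin n) where
  Adj a b := a ≠ b ∧ a ∈ S ∧ b ∈ S
  symm := ⟨fun _ _ h => ⟨h.1.symm, h.2.2, h.2.1⟩⟩
  loopless := ⟨fun _ h => h.1 rfl⟩

/-- the complete multipartite graph on `S` given by the colouring `c` -/
def multi (S : Finset (Fin n)) (c : Fin n → ℕ) : SimpleGraph (Fin n) where
  Adj a b := c a ≠ c b ∧ a ∈ S ∧ b ∈ S
  symm := ⟨fun _ _ h => ⟨h.1.symm, h.2.2, h.2.1⟩⟩
  loopless := ⟨fun _ h => h.1 rfl⟩

lemma cl_adj {S : Finset (Fin n)} {a b : Fin n} : (cl S).Adj a b ↔ a ≠ b ∧ a ∈ S ∧ b ∈ S := Iff.rfl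

lemma multi_adj {S : Finset (Fin n)} {c : Fin n → ℕ} {a b : Fin n} :
    (multi S c).Adj a b ↔ c a ≠ c b ∧ a ∈ S ∧ b ∈ S := Iff.rfl

lemma touched_subset (S : Finset (Fin n)) (T : Tree n) : touched S T ⊆ S := by
  induction T with
  | leaf b => simp [touched]
  | ask a b t₀ t₁ h₀ h₁ =>
    rw [touched]
    split_ifs with h
    · intro x hx
      rw [mem_insert, mem_insert] at hx
      rcases hx with rfl | rfl | hx
      · exact h.2.1
      · exact h.2.2
      · exact h₁ hx
    · exact h₀

lemma touched_subset_verts (S : Finset (Fin n)) (T : Tree n) :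
    touched S T ⊆ T.verts (cl S) := by
  induction T with
  | leaf b => simp [touched]
  | ask a b t₀ t₁ h₀ h₁ =>
    rw [touched, Tree.verts]
    split_ifs with h h' h'
    · intro x hx
      rw [mem_insert, mem_insert] at hx
      rw [mem_union, mem_insert, mem_singleton]
      rcases hx with rfl | rfl | hx
      · exact Or.inl (Or.inl rfl)
      · exact Or.inl (Or.inr rfl)
      · exact Or.inr (h₁ hx)
    · exact absurd h h'
    · exact absurd h' h
    · exact h₀.trans subset_union_right

lemma eval_multi (S : Finset (Fin n)) (c : Fin n → ℕ) (T : Tree n)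
    (h : ∀ a ∈ touched S T, ∀ b ∈ touched S T, a ≠ b → c a ≠ c b) :
    T.eval (multi S c) = T.eval (cl S) := by
  induction T with
  | leaf b => rfl
  | ask a b t₀ t₁ h₀ h₁ =>
    rw [touched] at h
    rw [Tree.eval, Tree.eval]
    split_ifs at h with hab
    · have h1 : (cl S).Adj a b := hab
      have h2 : (multi S c).Adj a b :=
        ⟨h a (by simp) b (by simp) hab.1, hab.2⟩
      rw [if_pos h1, if_pos h2]
      exact h₁ fun x hx y hy => h x (by simp [hx]) y (by simp [hy])
    · have h1 : ¬ (cl S).Adj a b := hab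
      have h2 : ¬ (multi S c).Adj a b := fun h3 => hab ⟨fun h4 => h3.1 (by rw [h4]), h3.2⟩
      rw [if_neg h1, if_neg h2]
      exact h₀ h

lemma hasClique_cl (S : Finset (Fin n)) : HasClique (cl S) S.card := by
  refine ⟨S, ?_, rfl⟩
  intro a ha b hb hab
  exact ⟨hab, ha, hb⟩

lemma not_hasClique_multi (S : Finset (Fin n)) (c : Fin n → ℕ) {q : ℕ}
    (hc : ∀ a, c a < q) : ¬ HasClique (multi S c) (q + 1) := by
  rintro ⟨s, hs, hcard⟩
  have h1 : Set.InjOn c s := by
    intro a ha b hb hab
    by_contra hne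
    exact (hs ha hb hne).1 hab
  have h2 : s.card ≤ (range q).card :=
    Finset.card_le_card_of_injOn c (fun a _ => by simpa using hc a) h1
  rw [card_range] at h2
  omega

/-! ### sets containing many seen vertices -/

lemma card_supersets {k s : ℕ} (X : Finset (Fin n)) (hX : s ≤ X.card) :
    ((powersetCard k (univ : Finset (Fin n))).filter (fun S => X ⊆ S)).card ≤
      (n - s).choose (k - s) := by
  obtain ⟨Y, hYX, hY⟩ := Finset.exists_subset_card_eq hX
  have h1 : ((powersetCard k (univ : Finset (Fin n))).filter (fun S => X ⊆ S)).card ≤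
      (powersetCard (k - s) (univ \ Y)).card := by
    apply Finset.card_le_card_of_injOn (fun S => S \ Y)
    · intro S hS
      rw [mem_coe, mem_filter, mem_powersetCard] at hS
      rw [mem_coe, mem_powersetCard]
      refine ⟨sdiff_subset_sdiff (subset_univ _) (subset_refl _), ?_⟩
      rw [card_sdiff_of_subset (hYX.trans hS.2), hS.1.2, hY]
    · intro S hS S' hS' h
      rw [mem_coe, mem_filter] at hS hS'
      have e1 : S = (S \ Y) ∪ Y := (sdiff_union_of_subset (hYX.trans hS.2)).symm
      have e2 : S' = (S' \ Y) ∪ Y := (sdiff_union_of_subset (hYX.trans hS'.2)).symm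
      have h' : S \ Y = S' \ Y := h
      rw [e1, e2, h']
  refine h1.trans ?_
  rw [card_powersetCard, card_sdiff_of_subset (subset_univ _), card_univ, Fintype.card_fin, hY]

open Classical in
/-- the `k`-sets with trace `Y` on `A` and with the property `Q` -/
noncomputable def fam (k : ℕ) (A Y : Finset (Fin n)) (Q : Finset (Fin n) → Prop) :
    Finset (Finset (Fin n)) :=
  (powersetCard k univ).filter fun S => S ∩ A = Y ∧ Q S

lemma mem_fam {k : ℕ} {A Y : Finset (Fin n)} {Q : Finset (Fin n) → Prop} {S : Finset (Fin n)} :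
    S ∈ fam k A Y Q ↔ S ∈ powersetCard k (univ : Finset (Fin n)) ∧ S ∩ A = Y ∧ Q S := by
  classical
  unfold fam
  exact mem_filter

lemma fam_large {k s r : ℕ} (A Y : Finset (Fin n)) (Q : Finset (Fin n) → Prop)
    (h : s ≤ Y.card) : (fam k A Y Q).card ≤ r.choose (s - Y.card) * (n - s).choose (k - s) := by
  rw [Nat.sub_eq_zero_of_le h, Nat.choose_zero_right, Nat.one_mul]
  refine le_trans (card_le_card ?_) (card_supersets Y h)
  intro S hS
  rw [mem_fam] at hS
  rw [mem_filter]
  refine ⟨hS.1, ?_⟩
  rw [← hS.2.1]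
  exact inter_subset_left

/-- revealing one more vertex -/
lemma reveal {k s t : ℕ} (A Y : Finset (Fin n)) (Q : Finset (Fin n) → Prop) (a : Fin n)
    (ht : ∀ S ∈ fam k A Y Q, (insert a A).card ≤ t)
    (h1 : (fam k (insert a A) Y Q).card ≤
      (t - (insert a A).card).choose (s - Y.card) * (n - s).choose (k - s))
    (h2 : a ∉ A → (fam k (insert a A) (insert a Y) Q).card ≤
      (t - (insert a A).card).choose (s - (insert a Y).card) * (n - s).choose (k - s)) :
    (fam k A Y Q).card ≤ (t - A.card).choose (s - Y.card) * (n - s).choose (k - s) := by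
  by_cases ha : a ∈ A
  · rwa [insert_eq_of_mem ha] at h1
  by_cases hs : s ≤ Y.card
  · exact fam_large A Y Q hs
  push Not at hs
  by_cases hemp : fam k A Y Q = ∅
  · rw [hemp, card_empty]
    exact Nat.zero_le _
  obtain ⟨S₀, hS₀⟩ := nonempty_iff_ne_empty.2 hemp
  have htA := ht S₀ hS₀
  have haY : a ∉ Y := by
    rw [mem_fam] at hS₀
    rw [← hS₀.2.1]
    exact fun h => ha (mem_inter.1 h).2
  rw [card_insert_of_notMem ha] at htA
  have h2' := h2 ha
  rw [card_insert_of_notMem ha] at h1 h2'
  rw [card_insert_of_notMem haY] at h2'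
  have hsub : fam k A Y Q ⊆ fam k (insert a A) Y Q ∪ fam k (insert a A) (insert a Y) Q := by
    intro S hS
    rw [mem_fam] at hS
    rw [mem_union, mem_fam, mem_fam]
    by_cases haS : a ∈ S
    · right
      refine ⟨hS.1, ?_, hS.2.2⟩
      rw [inter_insert_of_mem haS, hS.2.1]
    · left
      refine ⟨hS.1, ?_, hS.2.2⟩
      rw [inter_insert_of_notMem haS, hS.2.1]
  obtain ⟨r, hr⟩ : ∃ r, t - A.card = r + 1 := ⟨t - (A.card + 1), by omega⟩
  obtain ⟨j, hj⟩ : ∃ j, s - Y.card = j + 1 := ⟨s - (Y.card + 1), by omega⟩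
  have e1 : t - (A.card + 1) = r := by omega
  have e2 : s - (Y.card + 1) = j := by omega
  rw [e1, hj] at h1
  rw [e1, e2] at h2'
  calc (fam k A Y Q).card ≤ _ := card_le_card hsub
    _ ≤ _ := card_union_le _ _
    _ ≤ r.choose (j + 1) * (n - s).choose (k - s) + r.choose j * (n - s).choose (k - s) :=
      Nat.add_le_add h1 h2'
    _ = (t - A.card).choose (s - Y.card) * (n - s).choose (k - s) := by
      rw [hr, hj, Nat.choose_succ_succ' r j]; ring

lemma inter_eq_of_inter {A A' S Y : Finset (Fin n)} (h : A ⊆ A') (h1 : S ∩ A' = Y) :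
    S ∩ A = Y ∩ A := by
  rw [← h1]
  ext x
  simp only [mem_inter]
  constructor
  · rintro ⟨h2, h3⟩
    exact ⟨⟨h2, h h3⟩, h3⟩
  · rintro ⟨⟨h2, _⟩, h3⟩
    exact ⟨h2, h3⟩

lemma card_fam {k s t : ℕ} (T : Tree n) : ∀ A Y : Finset (Fin n), Y ⊆ A →
    (∀ S ∈ powersetCard k (univ : Finset (Fin n)), S ∩ A = Y →
      (A ∪ T.verts (cl S)).card ≤ t) →
    (fam k A Y (fun S => s ≤ (S ∩ (A ∪ T.verts (cl S))).card)).card ≤
      (t - A.card).choose (s - Y.card) * (n - s).choose (k - s) := by
  induction T with
  | leaf b =>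
    intro A Y _ _
    by_cases hs : s ≤ Y.card
    · exact fam_large A Y _ hs
    · have : fam k A Y (fun S => s ≤ (S ∩ (A ∪ (Tree.leaf b).verts (cl S))).card) = ∅ := by
        apply eq_empty_of_forall_notMem
        intro S hS
        rw [mem_fam] at hS
        obtain ⟨_, h1, h2⟩ := hS
        rw [Tree.verts, union_empty, h1] at h2
        exact hs h2
      rw [this, card_empty]
      exact Nat.zero_le _
  | ask a b t₀ t₁ h₀ h₁ =>
    intro A Y hYA ht
    set Q : Finset (Fin n) → Prop :=
      fun S => s ≤ (S ∩ (A ∪ (Tree.ask a b t₀ t₁).verts (cl S))).card with hQ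
    set A₂ : Finset (Fin n) := insert b (insert a A) with hA₂
    have hv0 : ∀ S, ¬ (cl S).Adj a b → A ∪ (Tree.ask a b t₀ t₁).verts (cl S) =
        A₂ ∪ t₀.verts (cl S) := by
      intro S h
      rw [Tree.verts, if_neg h]
      ext x
      simp only [hA₂, mem_union, mem_insert, mem_singleton]
      tauto
    have hv1 : ∀ S, (cl S).Adj a b → A ∪ (Tree.ask a b t₀ t₁).verts (cl S) =
        A₂ ∪ t₁.verts (cl S) := by
      intro S h
      rw [Tree.verts, if_pos h]
      ext x
      simp only [hA₂, mem_union, mem_insert, mem_singleton]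
      tauto
    have hsub2 : A ⊆ A₂ := fun x hx => by simp [hA₂, hx]
    -- after both vertices are revealed the answer is known
    have key : ∀ Y', Y' ⊆ A₂ → Y' ∩ A = Y → (fam k A₂ Y' Q).card ≤
        (t - A₂.card).choose (s - Y'.card) * (n - s).choose (k - s) := by
      intro Y' hY' hY'A
      have hadj : ∀ S, S ∩ A₂ = Y' → ((cl S).Adj a b ↔ a ≠ b ∧ a ∈ Y' ∧ b ∈ Y') := by
        intro S hS
        rw [cl_adj, ← hS]
        simp [hA₂]
      by_cases hab : a ≠ b ∧ a ∈ Y' ∧ b ∈ Y'
      · have e : fam k A₂ Y' Q =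
            fam k A₂ Y' (fun S => s ≤ (S ∩ (A₂ ∪ t₁.verts (cl S))).card) := by
          ext S
          rw [mem_fam, mem_fam]
          refine and_congr_right fun _ => and_congr_right fun h1 => ?_
          simp only [hQ]
          rw [hv1 S ((hadj S h1).2 hab)]
        rw [e]
        refine h₁ A₂ Y' hY' fun S hS h1 => ?_
        have h2 := ht S hS (by rw [inter_eq_of_inter hsub2 h1, hY'A])
        rwa [hv1 S ((hadj S h1).2 hab)] at h2
      · have e : fam k A₂ Y' Q =
            fam k A₂ Y' (fun S => s ≤ (S ∩ (A₂ ∪ t₀.verts (cl S))).card) := by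
          ext S
          rw [mem_fam, mem_fam]
          refine and_congr_right fun _ => and_congr_right fun h1 => ?_
          simp only [hQ]
          rw [hv0 S (fun h => hab ((hadj S h1).1 h))]
        rw [e]
        refine h₀ A₂ Y' hY' fun S hS h1 => ?_
        have h2 := ht S hS (by rw [inter_eq_of_inter hsub2 h1, hY'A])
        rwa [hv0 S (fun h => hab ((hadj S h1).1 h))] at h2
    have hcard : ∀ S ∈ powersetCard k (univ : Finset (Fin n)), S ∩ A = Y → A₂.card ≤ t := by
      intro S hS h1
      refine (card_le_card ?_).trans (ht S hS h1)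
      by_cases h : (cl S).Adj a b
      · rw [hv1 S h]
        exact subset_union_left
      · rw [hv0 S h]
        exact subset_union_left
    have hsub1 : A ⊆ insert a A := subset_insert a A
    -- reveal the two vertices
    have step : ∀ Y', Y' ⊆ insert a A → Y' ∩ A = Y → (fam k (insert a A) Y' Q).card ≤
        (t - (insert a A).card).choose (s - Y'.card) * (n - s).choose (k - s) := by
      intro Y' hY' hY'A
      apply reveal (insert a A) Y' Q b
      · intro S hS
        rw [mem_fam] at hS
        exact hcard S hS.1 (by rw [inter_eq_of_inter hsub1 hS.2.1, hY'A])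
      · exact key Y' (hY'.trans (subset_insert _ _)) hY'A
      · intro hb
        apply key
        · exact insert_subset_insert _ hY'
        · rw [insert_inter_of_notMem, hY'A]
          exact fun h => hb (mem_insert_of_mem h)
    apply reveal A Y Q a
    · intro S hS
      rw [mem_fam] at hS
      refine (card_le_card ?_).trans (hcard S hS.1 hS.2.1)
      exact subset_insert _ _
    · exact step Y (hYA.trans hsub1) (inter_eq_left.2 hYA)
    · intro ha
      apply step
      · exact insert_subset_insert _ hYA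
      · rw [insert_inter_of_notMem ha, inter_eq_left.2 hYA]

/-- few cliques are seen in many vertices -/
lemma card_touched {k s t : ℕ} (T : Tree n) (ht : ∀ G, (T.verts G).card ≤ t)
    [DecidablePred fun S : Finset (Fin n) => s ≤ (touched S T).card] :
    ((powersetCard k (univ : Finset (Fin n))).filter
      (fun S => s ≤ (touched S T).card)).card ≤ t.choose s * (n - s).choose (k - s) := by
  have h1 := card_fam (k := k) (s := s) (t := t) T ∅ ∅ (subset_refl _) (fun S _ _ => by
    rw [empty_union]; exact ht _)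
  rw [card_empty, Nat.sub_zero, Nat.sub_zero] at h1
  refine le_trans (card_le_card ?_) h1
  intro S hS
  rw [mem_filter] at hS
  rw [mem_fam]
  refine ⟨hS.1, inter_empty _, ?_⟩
  rw [empty_union]
  exact hS.2.trans (card_le_card (subset_inter (touched_subset S T) (touched_subset_verts S T)))

end Pool.Agent.Work.MP_3154ac_lc.LR
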