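import Mathlib

/-!
# Local reductions from gap Clique to gap MDkS: definitions
-/

set_option autoImplicit false

namespace Pool.Agent.Work.MP_3154ac_lc.LR

/-- An adaptive query algorithm (decision tree): it asks for adjacencies of a graph with the
vertices `0, ..., n - 1` and answers with a bit. -/
inductive Tree (n : ℕ) where
  | leaf (answer : Bool)
  | ask (a b : Fin n) (no yes : Tree n)

open Classical in
/-- The answer of the algorithm on the graph `G`. -/
noncomputable def Tree.eval {n : ℕ} (G : SimpleGraph (Fin n)) : Tree n → Bool
  | .leaf b => b
  | .ask a b t₀ t₁ => if G.Adj a b then t₁.eval G else t₀.eval G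

open Classical in
/-- The set of all vertices which occur in the queries of the algorithm on the graph `G`. -/
noncomputable def Tree.verts {n : ℕ} (G : SimpleGraph (Fin n)) : Tree n → Finset (Fin n)
  | .leaf _ => ∅
  | .ask a b t₀ t₁ => {a, b} ∪ if G.Adj a b then t₁.verts G else t₀.verts G

/-- `G` contains a clique with `k` vertices. -/
def HasClique {n : ℕ} (G : SimpleGraph (Fin n)) (k : ℕ) : Prop :=
  ∃ s : Finset (Fin n), G.IsNClique k s

section MDkS

variable {W : Type} {m : ℕ}

/-- An instance of MDkS with vertex set `W` and `m` parts consists of a partition
`part : W → Fin m` and of a graph on `W`. A feasible solution `x` picks one vertex in every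
part. -/
def IsSol (part : W → Fin m) (x : Fin m → W) : Prop := ∀ i, part (x i) = i

open Classical in
/-- The value of a solution: the number of edges between the chosen vertices. -/
noncomputable def value (H : SimpleGraph W) (x : Fin m → W) : ℕ :=
  (Finset.univ.filter fun p : Fin m × Fin m => p.1 < p.2 ∧ H.Adj (x p.1) (x p.2)).card

/-- `OPT = C(m, 2)` -/
def Full (part : W → Fin m) (H : SimpleGraph W) : Prop :=
  ∃ x, IsSol part x ∧ value H x = m.choose 2

/-- `OPT < C(m, 2) / (1 + e)` -/
def Small (e : ℝ) (part : W → Fin m) (H : SimpleGraph W) : Prop :=
  ∀ x, IsSol part x → (value H x : ℝ) < (m.choose 2 : ℝ) / (1 + e)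

end MDkS

/-- A randomised reduction with two-sided error from the gap clique problem, for graphs with `n`
vertices, to the gap MDkS problem. The seed `ω` is uniform in the finite type `Ω`. The reduction
produces, from `ω` and the graph `G`, an MDkS instance with vertex set `W`, with `m` parts, and
with the graph `map ω G`. Every single adjacency of the produced graph is found with adaptive
queries to `G` in which at most `t` vertices of `G` occur (the number of the queries is arbitrary;
for example every function of the subgraph induced by `G` on a fixed set of `t` vertices is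
allowed). If `G` has a clique with `k` vertices then `OPT = C(m, 2)`, and if `G` has no clique with
`q` vertices then `OPT < C(m, 2) / (1 + e)`, both with probability at least `2/3`. -/
structure Reduction (n k q m t : ℕ) (e : ℝ) (Ω W : Type) where
  part : Ω → W → Fin m
  map : Ω → SimpleGraph (Fin n) → SimpleGraph W
  queries : ∀ ω u v, ∃ T : Tree n, ∀ G, (T.verts G).card ≤ t ∧
    (T.eval G = true ↔ (map ω G).Adj u v)
  complete : ∀ G, HasClique G k →
    2 * Nat.card Ω ≤ 3 * Nat.card {ω // Full (part ω) (map ω G)}
  sound : ∀ G, ¬ HasClique G q →
    2 * Nat.card Ω ≤ 3 * Nat.card {ω // Small e (part ω) (map ω G)}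

end Pool.Agent.Work.MP_3154ac_lc.LR
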