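import Pool.Agent.Work.MP_3154ac_lc.LR.Avg

/-!
# Local reductions: the lower bound
-/

set_option autoImplicit false

namespace Pool.Agent.Work.MP_3154ac_lc.LR

open Finset

variable {n k q m t s : ℕ} {e : ℝ} {Ω W : Type}

open Classical in
/-- the seeds for which some adjacency sees many vertices of the clique `S` -/
noncomputable def seen [Fintype Ω] (T : Ω → W → W → Tree n) (s : ℕ) (S : Finset (Fin n)) :
    Finset Ω :=
  univ.filter fun ω => ∃ u v, s ≤ (touched S (T ω u v)).card

open Classical in
/-- for every clique, one sixth of the seeds see many vertices -/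
lemma card_seen [Fintype Ω] (R : Reduction n k (q + 1) m t e Ω W) (hq : 1 ≤ q) (hqk : q ≤ k)
    (he : 0 < e) (hs : 12 * (1 + e) * (s : ℝ) ^ 2 * ((k : ℝ) - q) ≤ e * q * k)
    (T : Ω → W → W → Tree n)
    (hT : ∀ ω u v G, (T ω u v).eval G = true ↔ (R.map ω G).Adj u v)
    (S : Finset (Fin n)) (hS : S.card = k) :
    Fintype.card Ω ≤ 6 * (seen T s S).card := by
  set F : Finset Ω := univ.filter fun ω => Full (R.part ω) (R.map ω (cl S)) with hF
  set Z : Equiv.Perm (Fin k) → Finset Ω := fun π =>
    univ.filter fun ω => Small e (R.part ω) (R.map ω (multi S (col S hS q π))) with hZ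
  have hFc : 2 * Fintype.card Ω ≤ 3 * F.card := by
    have h1 := R.complete (cl S) (by rw [← hS]; exact hasClique_cl S)
    rw [Nat.card_eq_fintype_card, Nat.card_eq_fintype_card, Fintype.card_subtype] at h1
    exact h1
  have hZc : ∀ π, 2 * Fintype.card Ω ≤ 3 * (Z π).card := by
    intro π
    have h1 := R.sound (multi S (col S hS q π))
      (not_hasClique_multi S _ (col_lt S hS hq π))
    rw [Nat.card_eq_fintype_card, Nat.card_eq_fintype_card, Fintype.card_subtype] at h1
    exact h1
  have hFZ : ∀ π, Fintype.card Ω ≤ 3 * (F ∩ Z π).card := by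
    intro π
    have h1 := card_union_add_card_inter F (Z π)
    have h2 : (F ∪ Z π).card ≤ Fintype.card Ω := card_le_univ _
    have h3 := hZc π
    omega
  have hsumlow : k.factorial * Fintype.card Ω ≤ 3 * ∑ π, (F ∩ Z π).card := by
    rw [mul_sum]
    calc k.factorial * Fintype.card Ω = ∑ _π : Equiv.Perm (Fin k), Fintype.card Ω := by
          rw [sum_const, card_univ, Fintype.card_perm, Fintype.card_fin, smul_eq_mul]
      _ ≤ _ := sum_le_sum fun π _ => hFZ π
  have hswap : ∑ π, (F ∩ Z π).card = ∑ ω ∈ F, (univ.filter fun π : Equiv.Perm (Fin k) =>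
      Small e (R.part ω) (R.map ω (multi S (col S hS q π)))).card := by
    have e1 : ∀ π, (F ∩ Z π).card = ∑ ω ∈ F,
        if Small e (R.part ω) (R.map ω (multi S (col S hS q π))) then 1 else 0 := by
      intro π
      rw [← card_filter]
      congr 1
      ext ω
      constructor
      · intro h
        rw [mem_inter] at h
        have h2 := h.2
        simp only [hZ, mem_filter, mem_univ, true_and] at h2
        exact mem_filter.2 ⟨h.1, h2⟩
      · intro h
        have h' := mem_filter.1 h
        exact mem_inter.2 ⟨h'.1, mem_filter.2 ⟨mem_univ _, h'.2⟩⟩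
    simp_rw [e1]
    rw [sum_comm]
    refine sum_congr rfl fun ω _ => ?_
    rw [card_filter]
  have hbound : ∀ ω ∈ F, 6 * (univ.filter fun π : Equiv.Perm (Fin k) =>
      Small e (R.part ω) (R.map ω (multi S (col S hS q π)))).card ≤
      k.factorial + (if ω ∈ seen T s S then 5 * k.factorial else 0) := by
    intro ω hω
    split_ifs with hsn
    · have h1 : (univ.filter fun π : Equiv.Perm (Fin k) =>
          Small e (R.part ω) (R.map ω (multi S (col S hS q π)))).card ≤ k.factorial := by
        have := card_le_univ (univ.filter fun π : Equiv.Perm (Fin k) =>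
          Small e (R.part ω) (R.map ω (multi S (col S hS q π))))
        rwa [Fintype.card_perm, Fintype.card_fin] at this
      omega
    · rw [add_zero]
      rw [hF, mem_filter] at hω
      obtain ⟨x, hx, hfull⟩ := hω.2
      rw [seen, mem_filter] at hsn
      push Not at hsn
      exact card_small S hS hq hqk he hs (R.part ω) (R.map ω) (T ω) (hT ω) x hx hfull
        (fun i j _ => (hsn (mem_univ _) (x i) (x j)).le)
  have hup : 6 * ∑ π, (F ∩ Z π).card ≤
      Fintype.card Ω * k.factorial + (seen T s S).card * (5 * k.factorial) := by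
    rw [hswap, mul_sum]
    calc _ ≤ ∑ ω ∈ F, (k.factorial + (if ω ∈ seen T s S then 5 * k.factorial else 0)) :=
          sum_le_sum hbound
      _ ≤ ∑ ω, (k.factorial + (if ω ∈ seen T s S then 5 * k.factorial else 0)) :=
          sum_le_sum_of_subset (subset_univ _)
      _ = _ := by
          rw [sum_add_distrib, sum_const, card_univ, smul_eq_mul, sum_ite_mem, univ_inter,
            sum_const, smul_eq_mul]
  have hpos : 0 < k.factorial := Nat.factorial_pos k
  have h1 : k.factorial * (2 * Fintype.card Ω) ≤
      k.factorial * (Fintype.card Ω + 5 * (seen T s S).card) := by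
    calc k.factorial * (2 * Fintype.card Ω) = 2 * (k.factorial * Fintype.card Ω) := by ring
      _ ≤ 2 * (3 * ∑ π, (F ∩ Z π).card) := Nat.mul_le_mul_left _ hsumlow
      _ = 6 * ∑ π, (F ∩ Z π).card := by ring
      _ ≤ Fintype.card Ω * k.factorial + (seen T s S).card * (5 * k.factorial) := hup
      _ = k.factorial * (Fintype.card Ω + 5 * (seen T s S).card) := by ring
  have h2 := Nat.le_of_mul_le_mul_left h1 hpos
  omega

/-- **Lower bound for local reductions.** -/
theorem main [Finite Ω] [Nonempty Ω] [Finite W] (R : Reduction n k (q + 1) m t e Ω W)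
    (hq : 1 ≤ q) (hqk : q < k) (hkn : k ≤ n) (he : 0 < e)
    (hs : 12 * (1 + e) * (s : ℝ) ^ 2 * ((k : ℝ) - q) ≤ e * q * k) :
    n.choose s ≤ 6 * Nat.card W ^ 2 * (k.choose s * t.choose s) := by
  classical
  have := Fintype.ofFinite Ω
  have := Fintype.ofFinite W
  rw [Nat.card_eq_fintype_card]
  choose T hTq using R.queries
  have hTd : ∀ ω u v G, ((T ω u v).verts G).card ≤ t := fun ω u v G => (hTq ω u v G).1
  have hT : ∀ ω u v G, (T ω u v).eval G = true ↔ (R.map ω G).Adj u v :=
    fun ω u v G => (hTq ω u v G).2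
  have hsk : s ≤ k := by
    by_contra hcon
    push Not at hcon
    have h1 : (k : ℝ) + 1 ≤ s := by exact_mod_cast hcon
    have h2 : (q : ℝ) + 1 ≤ k := by exact_mod_cast hqk
    have h3 : (0 : ℝ) < k := by
      have : 0 < k := by omega
      exact_mod_cast this
    have h4 : (k : ℝ) ^ 2 ≤ (s : ℝ) ^ 2 := pow_le_pow_left₀ h3.le (by linarith) 2
    have h5 : e * (k : ℝ) ^ 2 ≤ (1 + e) * (s : ℝ) ^ 2 := by
      apply mul_le_mul (by linarith) h4 (by positivity) (by linarith)
    have h6 : (1 + e) * (s : ℝ) ^ 2 ≤ (1 + e) * (s : ℝ) ^ 2 * ((k : ℝ) - q) := by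
      apply le_mul_of_one_le_right (by positivity)
      linarith
    have h7 : e * (q : ℝ) * k ≤ e * (k : ℝ) ^ 2 := by
      have : (q : ℝ) * k ≤ (k : ℝ) ^ 2 := by
        rw [sq]
        exact mul_le_mul_of_nonneg_right (by linarith) h3.le
      calc e * (q : ℝ) * k = e * ((q : ℝ) * k) := by ring
        _ ≤ _ := mul_le_mul_of_nonneg_left this he.le
    have h8 : 0 < e * (k : ℝ) ^ 2 := by positivity
    have h9 : 12 * (1 + e) * (s : ℝ) ^ 2 * ((k : ℝ) - q) =
        12 * ((1 + e) * (s : ℝ) ^ 2 * ((k : ℝ) - q)) := by ring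
    rw [h9] at hs
    linarith
  set 𝒮 : Finset (Finset (Fin n)) := powersetCard k univ with h𝒮
  have h𝒮c : 𝒮.card = n.choose k := by rw [h𝒮, card_powersetCard, card_univ, Fintype.card_fin]
  -- sum over the cliques
  have h1 : n.choose k * Fintype.card Ω ≤ 6 * ∑ S ∈ 𝒮, (seen T s S).card := by
    rw [← h𝒮c, mul_sum]
    calc 𝒮.card * Fintype.card Ω = ∑ _S ∈ 𝒮, Fintype.card Ω := by rw [sum_const, smul_eq_mul]
      _ ≤ _ := sum_le_sum fun S hS => card_seen R hq hqk.le he hs T
        (fun ω u v G => hT ω u v G) S (by rw [h𝒮, mem_powersetCard] at hS; exact hS.2)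
  have h2 : ∑ S ∈ 𝒮, (seen T s S).card ≤
      Fintype.card Ω * (Fintype.card W ^ 2 * (t.choose s * (n - s).choose (k - s))) := by
    have e1 : ∀ S, (seen T s S).card = ∑ ω : Ω,
        if ∃ u v, s ≤ (touched S (T ω u v)).card then 1 else 0 := by
      intro S
      rw [seen, card_filter]
      refine sum_congr rfl fun ω _ => ?_
      congr
    simp_rw [e1]
    rw [sum_comm]
    calc _ ≤ ∑ _ω : Ω, Fintype.card W ^ 2 * (t.choose s * (n - s).choose (k - s)) := by
          refine sum_le_sum fun ω _ => ?_
          rw [← card_filter]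
          have hsub : (𝒮.filter fun S => ∃ u v, s ≤ (touched S (T ω u v)).card) ⊆
              (univ : Finset (W × W)).biUnion fun p =>
                𝒮.filter fun S => s ≤ (touched S (T ω p.1 p.2)).card := by
            intro S hS
            rw [mem_filter] at hS
            obtain ⟨hS1, u, v, huv⟩ := hS
            rw [mem_biUnion]
            refine ⟨(u, v), mem_univ _, ?_⟩
            rw [mem_filter]
            exact ⟨hS1, huv⟩
          calc _ ≤ _ := card_le_card hsub
            _ ≤ _ := card_biUnion_le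
            _ ≤ ∑ _p : W × W, t.choose s * (n - s).choose (k - s) :=
              sum_le_sum fun p _ => card_touched (T ω p.1 p.2) (hTd ω p.1 p.2)
            _ = _ := by
              rw [sum_const, card_univ, Fintype.card_prod, smul_eq_mul, sq]
      _ = _ := by rw [sum_const, card_univ, smul_eq_mul]
  have hΩ : 0 < Fintype.card Ω := Fintype.card_pos
  have h3 : n.choose k ≤ 6 * Fintype.card W ^ 2 * (t.choose s * (n - s).choose (k - s)) := by
    apply Nat.le_of_mul_le_mul_left _ hΩ
    calc Fintype.card Ω * n.choose k = n.choose k * Fintype.card Ω := Nat.mul_comm _ _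
      _ ≤ 6 * ∑ S ∈ 𝒮, (seen T s S).card := h1
      _ ≤ 6 * (Fintype.card Ω * (Fintype.card W ^ 2 * (t.choose s * (n - s).choose (k - s)))) :=
        Nat.mul_le_mul_left _ h2
      _ = _ := by ring
  have hCpos : 0 < (n - s).choose (k - s) := Nat.choose_pos (by omega)
  have h4 : n.choose k * k.choose s = n.choose s * (n - s).choose (k - s) :=
    Nat.choose_mul hsk
  apply Nat.le_of_mul_le_mul_left _ hCpos
  calc (n - s).choose (k - s) * n.choose s = n.choose k * k.choose s := by rw [h4]; ring
    _ ≤ 6 * Fintype.card W ^ 2 * (t.choose s * (n - s).choose (k - s)) * k.choose s :=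
      Nat.mul_le_mul_right _ h3
    _ = (n - s).choose (k - s) * (6 * Fintype.card W ^ 2 * (k.choose s * t.choose s)) := by ring

end Pool.Agent.Work.MP_3154ac_lc.LR
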